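import Pool.Agent.Helper37.KDB.Extra
import Pool.Agent.Helper37.KDB.St.D1
import Pool.Agent.Helper37.KDB.St.P2
import Pool.Agent.Helper37.KDB.St.P5
import Pool.Agent.Helper37.KDB.St.P6
import Pool.Agent.Helper37.KDB.St.P8
import Pool.Agent.Helper37.KDB.St.P9
import Pool.Agent.Helper37.KDB.St.P10

/-! Project KDB, piece P15: the total relative noise. -/

set_option autoImplicit false

namespace KDB.I.P15

open MeasureTheory KDB
open scoped ENNReal

variable (p : Par)

lemma geo_tail (r : ℝ) (hr : 2 ≤ r) (M n : ℕ) :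
    ∑ i ∈ Finset.Ico M n, (1 / r ^ i) ≤ 2 / r ^ M := by
  have hr0 : 0 < r := by linarith
  rcases le_or_gt n M with h | h
  · rw [Finset.Ico_eq_empty_of_le h, Finset.sum_empty]
    positivity
  · have key : ∀ n, M ≤ n → ∑ i ∈ Finset.Ico M n, (1 / r ^ i) ≤ 2 / r ^ M - 2 / r ^ n := by
      intro n hn
      induction n, hn using Nat.le_induction with
      | base => simp
      | succ n hn ih =>
        rw [Finset.sum_Ico_succ_top hn]
        have h1 : 1 / r ^ n ≤ 2 / r ^ n - 2 / r ^ (n + 1) := by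
          have h2 : 2 / r ^ (n + 1) ≤ 1 / r ^ n := by
            rw [div_le_div_iff₀ (by positivity) (by positivity), pow_succ]
            nlinarith [pow_pos hr0 n]
          have h3 : 2 / r ^ n = 1 / r ^ n + 1 / r ^ n := by ring
          linarith
        linarith
    have h1 := key n h.le
    have h2 : 0 ≤ 2 / r ^ n := by positivity
    linarith

lemma ell_ge (hp : p.Ok) : (1000 : ℝ) ≤ (p.ell : ℝ) := by
  have h1 : 1000 ≤ p.ell := by
    unfold Par.ell
    calc 1000 ≤ p.L := hp.hL
      _ = p.L ^ 1 := (pow_one _).symm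
      _ ≤ p.L ^ p.q := Nat.pow_le_pow_right (by have := hp.hL; omega) hp.hq
  exact_mod_cast h1

lemma rho_pos (hp : p.Ok) (k : ℕ) : 0 < p.rho k := by
  have := ell_ge p hp
  unfold Par.rho
  positivity

lemma rho_mono (hp : p.Ok) {k l : ℕ} (h : k ≤ l) : p.rho k ≤ p.rho l := by
  have := ell_ge p hp
  unfold Par.rho
  exact pow_le_pow_right₀ (by linarith) h

lemma noise_inner (hp : p.Ok) (x : ℝ) (hx : 0 ≤ x) (m l : ℕ) :
    ∑ i ∈ Finset.range p.n, (if m ≤ i ∧ l ≤ i then x / p.rho i else 0) ≤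
      2 * x / p.rho (max m l) := by
  have hl := ell_ge p hp
  have h1 : ∑ i ∈ Finset.range p.n, (if m ≤ i ∧ l ≤ i then x / p.rho i else 0)
      = ∑ i ∈ Finset.Ico (max m l) p.n, x * (1 / (p.ell : ℝ) ^ i) := by
    rw [← Finset.sum_filter]
    have h2 : (Finset.range p.n).filter (fun i => m ≤ i ∧ l ≤ i) = Finset.Ico (max m l) p.n := by
      ext i
      rw [Finset.mem_filter, Finset.mem_range, Finset.mem_Ico, max_le_iff]
      tauto
    rw [h2]
    refine Finset.sum_congr rfl fun i _ => ?_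
    unfold Par.rho
    ring
  rw [h1, ← Finset.mul_sum]
  calc x * ∑ i ∈ Finset.Ico (max m l) p.n, (1 / (p.ell : ℝ) ^ i)
      ≤ x * (2 / (p.ell : ℝ) ^ (max m l)) :=
        mul_le_mul_of_nonneg_left (geo_tail _ (by linarith) _ _) hx
    _ = 2 * x / p.rho (max m l) := by
        unfold Par.rho
        ring

lemma exp_le (x : ℝ) (h0 : 0 ≤ x) (h1 : x ≤ 1) : Real.exp x - 1 ≤ 2 * x := by
  have h2 := Real.abs_exp_sub_one_le (x := x) (by rw [abs_of_nonneg h0]; exact h1)
  rw [abs_of_nonneg h0] at h2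
  exact (le_abs_self _).trans h2

/-- exponent of a kick -/
noncomputable def g1 (t j : ℕ) (w : V p.d) : ℝ :=
  (1 / (2 * p.L)) * (‖w‖ / p.rho (max (p.mst t j) (p.kl w)))

/-- exponent of a ring -/
noncomputable def g2 (t j k : ℕ) : ℝ :=
  (1 / 2) * (p.rho (k + 1) / p.rho (max (p.mst t j) (k + 1)))

lemma g1_nonneg (hp : p.Ok) (t j : ℕ) (w : V p.d) : 0 ≤ g1 p t j w := by
  unfold g1
  have := rho_pos p hp (max (p.mst t j) (p.kl w))
  positivity

lemma g2_nonneg (hp : p.Ok) (t j k : ℕ) : 0 ≤ g2 p t j k := by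
  unfold g2
  have := rho_pos p hp (max (p.mst t j) (k + 1))
  have := rho_pos p hp (k + 1)
  positivity

lemma g1_meas (t j : ℕ) : Measurable (g1 p t j) := by
  unfold g1
  refine Measurable.const_mul ?_ _
  refine measurable_norm.div ?_
  have h1 : Measurable fun l : ℕ => p.rho (max (p.mst t j) l) := measurable_from_top
  exact h1.comp (kl_meas p)

lemma kd_nonneg (hp : p.Ok) (w : V p.d) : 0 ≤ p.kd w := by
  unfold Par.kd
  split_ifs
  · have := hp.hlam
    have : 0 ≤ e2 w := Real.sqrt_nonneg _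
    positivity
  · exact le_rfl

lemma kd_exp_le (hp : p.Ok) (t j : ℕ) (w : V p.d) :
    p.kd w * (Real.exp (g1 p t j w) - 1) ≤
      (1 / p.L) * (p.kd w * (‖w‖ / p.rho (max (p.mst t j) (p.kl w)))) := by
  have hL : (1000 : ℝ) ≤ p.L := by exact_mod_cast hp.hL
  by_cases hw : ‖w‖ < p.rho p.n
  · have h1 := (kl_spec p hp w hw).2.1
    have h2 : ‖w‖ ≤ p.rho (max (p.mst t j) (p.kl w)) :=
      h1.le.trans (rho_mono p hp (le_max_right _ _))
    have h3 := rho_pos p hp (max (p.mst t j) (p.kl w))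
    have h4 : ‖w‖ / p.rho (max (p.mst t j) (p.kl w)) ≤ 1 := by
      rw [div_le_one h3]
      exact h2
    have h5 : g1 p t j w ≤ 1 := by
      unfold g1
      have h6 : (1 : ℝ) / (2 * p.L) ≤ 1 := by
        rw [div_le_one (by linarith)]
        linarith
      have h7 : 0 ≤ ‖w‖ / p.rho (max (p.mst t j) (p.kl w)) := by positivity
      calc (1 : ℝ) / (2 * p.L) * (‖w‖ / p.rho (max (p.mst t j) (p.kl w))) ≤ 1 * 1 :=
            mul_le_mul h6 h4 h7 (by norm_num)
        _ = 1 := by norm_num
    calc p.kd w * (Real.exp (g1 p t j w) - 1) ≤ p.kd w * (2 * g1 p t j w) :=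
          mul_le_mul_of_nonneg_left (exp_le _ (g1_nonneg p hp t j w) h5) (kd_nonneg p hp w)
      _ = _ := by
          unfold g1
          field_simp
  · have h1 : p.kd w = 0 := by
      unfold Par.kd
      rw [if_neg]
      tauto
    rw [h1]
    simp

lemma kd_exp_int (hp : p.Ok) (hq : 2 ≤ p.q) (t j : ℕ) (hj : p.mst t j < p.n) :
    Integrable (fun w => p.kd w * (Real.exp (g1 p t j w) - 1)) ∧
      ∫ w, p.kd w * (Real.exp (g1 p t j w) - 1) ≤
        (1 / p.L) * (p.lam * (2 ^ (p.d + 2) * p.d) * ((p.L : ℝ) ^ (p.mst t j))⁻¹) := by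
  have h1 := kick_noise p hp hq (p.mst t j) hj
  have hint : Integrable (fun w => p.kd w * (Real.exp (g1 p t j w) - 1)) := by
    refine Integrable.mono' (h1.1.const_mul (1 / (p.L : ℝ))) ?_ ?_
    · refine AEStronglyMeasurable.mul (kd_int p hp).aestronglyMeasurable ?_
      exact ((Real.measurable_exp.comp (g1_meas p t j)).sub_const 1).aestronglyMeasurable
    · refine Filter.Eventually.of_forall fun w => ?_
      have h2 : 0 ≤ p.kd w * (Real.exp (g1 p t j w) - 1) := by
        refine mul_nonneg (kd_nonneg p hp w) ?_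
        have := Real.one_le_exp (g1_nonneg p hp t j w)
        linarith
      rw [Real.norm_of_nonneg h2]
      exact kd_exp_le p hp t j w
  refine ⟨hint, ?_⟩
  calc ∫ w, p.kd w * (Real.exp (g1 p t j w) - 1)
      ≤ ∫ w, (1 / (p.L : ℝ)) * (p.kd w * (‖w‖ / p.rho (max (p.mst t j) (p.kl w)))) :=
        integral_mono hint (h1.1.const_mul _) (kd_exp_le p hp t j)
    _ = (1 / (p.L : ℝ)) * ∫ w, p.kd w * (‖w‖ / p.rho (max (p.mst t j) (p.kl w))) :=
        integral_const_mul _ _
    _ ≤ _ := mul_le_mul_of_nonneg_left h1.2 (by positivity)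

lemma pring_nonneg (hp : p.Ok) (k j : ℕ) : 0 ≤ p.pring k j := by
  unfold Par.pring
  have h1 := (chi_bounds p k j).1
  have h2 := hp.hmu
  positivity

lemma mst_int (hp : p.Ok) {t : ℕ} (ht : t ≤ p.tau p.n) {j m : ℕ} (hj : j < t)
    (hm : p.mst t j ≤ m) : t - MM * p.tau (m + 1) ≤ j := by
  have h1 := (mst_spec p hp t j hj ht).2
  have h2 : p.tau (p.mst t j + 1) ≤ p.tau (m + 1) := by
    unfold Par.tau
    exact Nat.mul_le_mul_left _ (Nat.pow_le_pow_right (by have := hp.hL; omega) (by omega))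
  have h3 := Nat.mul_le_mul_left MM h2
  omega

lemma tau_pos (hp : p.Ok) (k : ℕ) : (0 : ℝ) < p.tau k := by
  unfold Par.tau
  have h1 := hp.hL
  have h2 := hp.hH
  have h3 : 0 < p.H * p.L ^ (k + p.q) := Nat.mul_pos (by omega) (Nat.pow_pos (by omega))
  exact_mod_cast h3

lemma tau_add (k r : ℕ) : (p.tau (k + r) : ℝ) = (p.L : ℝ) ^ r * p.tau k := by
  unfold Par.tau
  push_cast
  ring

/-- mass of the rings of level `k` in the time remembered by level `m` -/
lemma ring_I (hp : p.Ok) (t k r : ℕ) :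
    ∑ j ∈ Finset.Ico (t - MM * p.tau (k + 1 + r + 1)) t, p.pring k j ≤
      2 * p.mu * (50 * (p.L : ℝ) ^ (r + 1) + 2) := by
  refine (ring_mass p hp k _ _).trans ?_
  have hmu := hp.hmu
  have h1 : ((t - (t - MM * p.tau (k + 1 + r + 1)) : ℕ) : ℝ) ≤
      50 * (p.L : ℝ) ^ (r + 1) * p.tau (k + 1) := by
    have h2 : t - (t - MM * p.tau (k + 1 + r + 1)) ≤ MM * p.tau (k + 1 + (r + 1)) := by
      rw [add_assoc (k + 1)]
      omega
    calc ((t - (t - MM * p.tau (k + 1 + r + 1)) : ℕ) : ℝ) ≤
          ((MM * p.tau (k + 1 + (r + 1)) : ℕ) : ℝ) := by exact_mod_cast h2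
      _ = 50 * (p.L : ℝ) ^ (r + 1) * p.tau (k + 1) := by
          rw [Nat.cast_mul, tau_add]
          unfold MM
          push_cast
          ring
  have h3 : ((t - (t - MM * p.tau (k + 1 + r + 1)) : ℕ) : ℝ) / p.tau (k + 1) ≤
      50 * (p.L : ℝ) ^ (r + 1) := by
    rw [div_le_iff₀ (tau_pos p hp _)]
    exact h1
  apply mul_le_mul_of_nonneg_left _ (by positivity)
  linarith

/-- the rings of one level -/
lemma ring_sum (hp : p.Ok) (hq : 2 ≤ p.q) {t : ℕ} (ht : t ≤ p.tau p.n) (k : ℕ) :
    ∑ j ∈ Finset.range t, p.pring k j * (p.rho (k + 1) / p.rho (max (p.mst t j) (k + 1))) ≤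
      101 * p.L * p.mu := by
  have hell := ell_ge p hp
  have hL : (1000 : ℝ) ≤ p.L := by exact_mod_cast hp.hL
  have hmu := hp.hmu
  -- the tail function
  let f : ℕ → ℕ → ℝ := fun m j =>
    if m ≤ k + 1 then 0 else p.pring k j * (1 / (p.ell : ℝ) ^ (m - (k + 1)))
  have hf : ∀ m j, 0 ≤ f m j := by
    intro m j
    simp only [f]
    split_ifs
    · exact le_rfl
    · exact mul_nonneg (pring_nonneg p hp k j) (by positivity)
  have hstep : ∀ j ∈ Finset.range t,
      p.pring k j * (p.rho (k + 1) / p.rho (max (p.mst t j) (k + 1))) ≤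
      (if p.mst t j ≤ k + 1 then p.pring k j else 0) + f (p.mst t j) j := by
    intro j _
    by_cases hm : p.mst t j ≤ k + 1
    · rw [if_pos hm, max_eq_right hm, div_self (rho_pos p hp _).ne', mul_one]
      have := hf (p.mst t j) j
      linarith
    · rw [if_neg hm]
      simp only [f]
      rw [if_neg hm, max_eq_left (by omega), zero_add]
      apply le_of_eq
      congr 1
      have h1 : p.mst t j = (k + 1) + (p.mst t j - (k + 1)) := by omega
      unfold Par.rho
      rw [div_eq_div_iff (by positivity) (by positivity), one_mul, ← pow_add, ← h1]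
  refine (Finset.sum_le_sum hstep).trans ?_
  rw [Finset.sum_add_distrib]
  have hA : ∑ j ∈ Finset.range t, (if p.mst t j ≤ k + 1 then p.pring k j else 0) ≤
      2 * p.mu * (50 * p.L + 2) := by
    have h1 := ring_I p hp t k 0
    rw [zero_add, pow_one] at h1
    refine le_trans ?_ h1
    rw [← Finset.sum_filter]
    refine Finset.sum_le_sum_of_subset_of_nonneg ?_ fun j _ _ => pring_nonneg p hp k j
    intro j hj
    rw [Finset.mem_filter, Finset.mem_range] at hj
    rw [Finset.mem_Ico]
    exact ⟨mst_int p hp ht hj.1 hj.2, hj.1⟩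
  have hB : ∑ j ∈ Finset.range t, f (p.mst t j) j ≤ 208 * p.mu := by
    refine (sum_mst p hp t ht f hf).trans ?_
    have hterm : ∀ m ∈ Finset.range p.n,
        ∑ j ∈ Finset.Ico (t - MM * p.tau (m + 1)) t, f m j ≤
          if k + 2 ≤ m then (104 * p.mu * p.L) * (1 / (p.L : ℝ) ^ (m - (k + 1))) else 0 := by
      intro m _
      by_cases hm : k + 2 ≤ m
      · rw [if_pos hm]
        obtain ⟨r, hr⟩ : ∃ r, m = k + 1 + r := ⟨m - (k + 1), by omega⟩
        have hr1 : 1 ≤ r := by omega
        have h1 : ∑ j ∈ Finset.Ico (t - MM * p.tau (m + 1)) t, f m j =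
            (∑ j ∈ Finset.Ico (t - MM * p.tau (k + 1 + r + 1)) t, p.pring k j) *
              (1 / (p.ell : ℝ) ^ r) := by
          rw [hr, Finset.sum_mul]
          refine Finset.sum_congr rfl fun j _ => ?_
          simp only [f]
          rw [if_neg (by omega)]
          congr 3
          omega
        rw [h1]
        have h2 := ring_I p hp t k r
        have h3 : (0 : ℝ) ≤ 1 / (p.ell : ℝ) ^ r := by positivity
        have h4 : m - (k + 1) = r := by omega
        rw [h4]
        have h5 : ((p.L : ℝ) ^ 2) ^ r ≤ (p.ell : ℝ) ^ r := by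
          apply pow_le_pow_left₀ (by positivity)
          have h6 : p.L ^ 2 ≤ p.ell := Nat.pow_le_pow_right (by have := hp.hL; omega) hq
          exact_mod_cast h6
        have h7 : 50 * (p.L : ℝ) ^ (r + 1) + 2 ≤ 52 * (p.L : ℝ) ^ (r + 1) := by
          have : (1 : ℝ) ≤ (p.L : ℝ) ^ (r + 1) := one_le_pow₀ (by linarith)
          linarith
        have hLr : (0 : ℝ) < (p.L : ℝ) ^ r := by positivity
        calc (∑ j ∈ Finset.Ico (t - MM * p.tau (k + 1 + r + 1)) t, p.pring k j) *
              (1 / (p.ell : ℝ) ^ r)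
            ≤ (2 * p.mu * (52 * (p.L : ℝ) ^ (r + 1))) * (1 / (p.ell : ℝ) ^ r) := by
              apply mul_le_mul_of_nonneg_right _ h3
              exact h2.trans (mul_le_mul_of_nonneg_left h7 (by positivity))
          _ ≤ (2 * p.mu * (52 * (p.L : ℝ) ^ (r + 1))) * (1 / ((p.L : ℝ) ^ 2) ^ r) := by
              apply mul_le_mul_of_nonneg_left _ (by positivity)
              exact one_div_le_one_div_of_le (by positivity) h5
          _ = _ := by
              rw [← pow_mul, pow_succ (p.L : ℝ) r, mul_comm 2 r, pow_mul, sq]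
              field_simp
              ring
      · rw [if_neg hm]
        apply le_of_eq
        apply Finset.sum_eq_zero
        intro j _
        simp only [f]
        rw [if_pos (by omega)]
    refine (Finset.sum_le_sum hterm).trans ?_
    rw [← Finset.sum_filter, ← Finset.mul_sum]
    have h1 : ∑ m ∈ (Finset.range p.n).filter (fun m => k + 2 ≤ m),
        (1 / (p.L : ℝ) ^ (m - (k + 1))) ≤ 2 / p.L := by
      have h2 : (Finset.range p.n).filter (fun m => k + 2 ≤ m) =
          Finset.Ico (k + 2) p.n := by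
        ext i
        rw [Finset.mem_filter, Finset.mem_range, Finset.mem_Ico]
        tauto
      rw [h2]
      have h3 : ∑ m ∈ Finset.Ico (k + 2) p.n, (1 / (p.L : ℝ) ^ (m - (k + 1))) =
          (p.L : ℝ) ^ (k + 1) * ∑ m ∈ Finset.Ico (k + 2) p.n, (1 / (p.L : ℝ) ^ m) := by
        rw [Finset.mul_sum]
        refine Finset.sum_congr rfl fun m hm => ?_
        have hm' := (Finset.mem_Ico.1 hm).1
        have h4 : m = (k + 1) + (m - (k + 1)) := by omega
        have h5 : (p.L : ℝ) ^ m = (p.L : ℝ) ^ (k + 1) * (p.L : ℝ) ^ (m - (k + 1)) := by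
          rw [← pow_add, ← h4]
        rw [h5]
        field_simp
      rw [h3]
      calc (p.L : ℝ) ^ (k + 1) * ∑ m ∈ Finset.Ico (k + 2) p.n, (1 / (p.L : ℝ) ^ m)
          ≤ (p.L : ℝ) ^ (k + 1) * (2 / (p.L : ℝ) ^ (k + 2)) :=
            mul_le_mul_of_nonneg_left (geo_tail _ (by linarith) _ _) (by positivity)
        _ = 2 / p.L := by
            rw [pow_succ (p.L : ℝ) (k + 1)]
            field_simp
    calc 104 * p.mu * p.L * ∑ m ∈ (Finset.range p.n).filter (fun m => k + 2 ≤ m),
          (1 / (p.L : ℝ) ^ (m - (k + 1))) ≤ 104 * p.mu * p.L * (2 / p.L) :=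
          mul_le_mul_of_nonneg_left h1 (by positivity)
      _ = 208 * p.mu := by
          field_simp
          ring
  nlinarith

/-- the kicks -/
lemma kick_sum (hp : p.Ok) {t : ℕ} (ht : t ≤ p.tau p.n) (c : ℝ) (hc : 0 ≤ c) :
    ∑ j ∈ Finset.range t, p.h * ((1 / p.L) * (c * ((p.L : ℝ) ^ (p.mst t j))⁻¹)) ≤
      50 * c * p.n := by
  have hL : (1000 : ℝ) ≤ p.L := by exact_mod_cast hp.hL
  have hh : 0 ≤ p.h := by
    unfold Par.h
    positivity
  refine (sum_mst p hp t ht (fun m _ => p.h * ((1 / p.L) * (c * ((p.L : ℝ) ^ m)⁻¹)))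
    (fun m j => by positivity)).trans ?_
  calc _ ≤ ∑ m ∈ Finset.range p.n, 50 * c := by
        refine Finset.sum_le_sum fun m _ => ?_
        rw [Finset.sum_const, Nat.card_Ico, nsmul_eq_mul]
        have h2 : t - (t - MM * p.tau (m + 1)) ≤ MM * p.tau (m + 1) := by omega
        have h3 : ((t - (t - MM * p.tau (m + 1)) : ℕ) : ℝ) ≤ 50 * p.tau (m + 1) := by
          calc ((t - (t - MM * p.tau (m + 1)) : ℕ) : ℝ) ≤ ((MM * p.tau (m + 1) : ℕ) : ℝ) := by
                exact_mod_cast h2
            _ = _ := by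
                unfold MM
                push_cast
                ring
        calc ((t - (t - MM * p.tau (m + 1)) : ℕ) : ℝ) *
              (p.h * ((1 / p.L) * (c * ((p.L : ℝ) ^ m)⁻¹)))
            ≤ (50 * p.tau (m + 1)) * (p.h * ((1 / p.L) * (c * ((p.L : ℝ) ^ m)⁻¹))) :=
              mul_le_mul_of_nonneg_right h3 (by positivity)
          _ = 50 * (p.h * p.tau (m + 1)) * ((1 / p.L) * (c * ((p.L : ℝ) ^ m)⁻¹)) := by ring
          _ = 50 * c := by
              rw [h_tau p hp, pow_succ]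
              field_simp
    _ = _ := by
        rw [Finset.sum_const, Finset.card_range, nsmul_eq_mul]
        ring

theorem prob_N (hp : p.Reg) (hH : p.Hok) (N t : ℕ) (ht : t ≤ N) (htn : t ≤ p.tau p.n) :
    p.pathLaw N {om | p.K2 * p.n < p.Nf (p.exte N om) t} ≤
      ENNReal.ofReal ((p.L : ℝ) ^ (-(7 / 5 : ℝ) * p.n)) := by
  have hok := hp.toOk
  have hL : (1000 : ℝ) ≤ p.L := by exact_mod_cast hok.hL
  have hL0 : (0 : ℝ) < p.L := by linarith
  have hlog := hp.r1
  have hmu := hp.r2
  have hmu0 := hok.hmu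
  have hn : (1 : ℝ) ≤ p.n := by exact_mod_cast hok.hn
  have hq : 2 ≤ p.q := by
    have h1 := hp.r8
    unfold Par.K1 at h1
    have h2 : (2 : ℝ) ≤ p.q := by linarith
    exact_mod_cast h2
  have hPhi : ∀ om : ℕ → Nz p.d, 1 / (4 * (p.L : ℝ)) * p.Nf om t ≤ ∑ j ∈ Finset.range t,
      (if (om j).lab = 0 then 0 else if (om j).lab = 1 then g1 p t j (om j).w
        else g2 p t j ((om j).lab - 2)) := by
    intro om
    unfold Par.Nf
    rw [Finset.mul_sum]
    refine Finset.sum_le_sum fun j _ => ?_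
    by_cases h0 : (om j).lab = 0
    · rw [if_pos h0]
      have h1 : p.sz (om j) = 0 := by
        unfold Par.sz
        rw [if_pos h0]
      rw [h1]
      simp
    · rw [if_neg h0]
      by_cases h1 : (om j).lab = 1
      · rw [if_pos h1]
        have h2 : p.sz (om j) = ‖(om j).w‖ := by
          unfold Par.sz
          rw [if_neg h0, if_pos h1]
        have h3 : p.lv (om j) = p.kl (om j).w := by
          unfold Par.lv
          rw [if_neg h0, if_pos h1]
        rw [h2, h3]
        have h4 := noise_inner p hok ‖(om j).w‖ (norm_nonneg _) (p.mst t j) (p.kl (om j).w)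
        calc 1 / (4 * (p.L : ℝ)) * _ ≤ 1 / (4 * (p.L : ℝ)) *
              (2 * ‖(om j).w‖ / p.rho (max (p.mst t j) (p.kl (om j).w))) :=
              mul_le_mul_of_nonneg_left h4 (by positivity)
          _ = g1 p t j (om j).w := by
              unfold g1
              field_simp
              ring
      · rw [if_neg h1]
        obtain ⟨k, hk⟩ : ∃ k, (om j).lab = k + 2 := ⟨(om j).lab - 2, by omega⟩
        have h2 : p.sz (om j) = p.L * p.rho (k + 1) := by
          unfold Par.sz
          rw [if_neg h0, if_neg h1, hk]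
          rfl
        have h3 : p.lv (om j) = k + 1 := by
          unfold Par.lv
          rw [if_neg h0, if_neg h1, hk]
          rfl
        have h3' : (om j).lab - 2 = k := by omega
        rw [h2, h3, h3']
        have h5 := rho_pos p hok (k + 1)
        have h4 := noise_inner p hok (p.L * p.rho (k + 1)) (by positivity) (p.mst t j) (k + 1)
        calc 1 / (4 * (p.L : ℝ)) * _ ≤ 1 / (4 * (p.L : ℝ)) *
              (2 * (p.L * p.rho (k + 1)) / p.rho (max (p.mst t j) (k + 1))) :=
              mul_le_mul_of_nonneg_left h4 (by positivity)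
          _ = g2 p t j k := by
              unfold g2
              field_simp
              ring
  have key := chernoff_sum p hok hH N t ht (g1 p t) (g2 p t) (g1_meas p t) (g1_nonneg p hok t)
    (g2_nonneg p hok t) (fun j hj => (kd_exp_int p hok hq t j (mst_spec p hok t j hj htn).1).1)
    (fun j => p.h * ((1 / p.L) * ((p.lam * (2 ^ (p.d + 2) * p.d)) *
        ((p.L : ℝ) ^ (p.mst t j))⁻¹)) +
      ∑ k ∈ Finset.range p.n, p.pring k j * (p.rho (k + 1) / p.rho (max (p.mst t j) (k + 1))))
    ?_ (fun om => 1 / (4 * (p.L : ℝ)) * p.Nf om t) hPhi (1 / (4 * (p.L : ℝ)) * (p.K2 * p.n))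
  · have hset : {om : Fin N → Nz p.d | p.K2 * p.n < p.Nf (p.exte N om) t} =
        {om | 1 / (4 * (p.L : ℝ)) * (p.K2 * p.n) < 1 / (4 * (p.L : ℝ)) * p.Nf (p.exte N om) t} := by
      ext om
      rw [Set.mem_ofPred_eq, Set.mem_ofPred_eq]
      exact (mul_lt_mul_iff_right₀ (by positivity)).symm
    rw [hset]
    refine key.trans ?_
    apply ENNReal.ofReal_le_ofReal
    rw [Real.rpow_def_of_pos hL0]
    apply Real.exp_le_exp.2
    rw [Finset.sum_add_distrib, Finset.sum_comm]
    have hc0 : 0 ≤ p.lam * (2 ^ (p.d + 2) * p.d) := by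
      have := hok.hlam
      positivity
    have h1 := kick_sum p hok htn _ hc0
    have h2 : ∑ k ∈ Finset.range p.n, ∑ j ∈ Finset.range t,
        p.pring k j * (p.rho (k + 1) / p.rho (max (p.mst t j) (k + 1))) ≤
        p.n * (101 * p.L * p.mu) := by
      calc _ ≤ ∑ k ∈ Finset.range p.n, 101 * p.L * p.mu :=
            Finset.sum_le_sum fun k _ => ring_sum p hok hq htn k
        _ = _ := by rw [Finset.sum_const, Finset.card_range, nsmul_eq_mul]
    have h3 : 50 * (p.lam * (2 ^ (p.d + 2) * p.d)) ≤ 1 := by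
      have h4 := hp.r4
      have h5 : (1 : ℝ) ≤ ((p.q : ℝ) + 1) * (p.L : ℝ) ^ 4 := by
        have h6 : (1 : ℝ) ≤ (p.L : ℝ) ^ 4 := one_le_pow₀ (by linarith)
        have h7 : (0 : ℝ) ≤ p.q := Nat.cast_nonneg _
        nlinarith
      have h8 : 0 ≤ p.lam * (2 ^ p.d * p.d) := by
        have := hok.hlam
        positivity
      have h9 : p.lam * (2 ^ p.d * p.d) ≤ 1 / 10000 := by
        calc p.lam * (2 ^ p.d * p.d) = p.lam * (2 ^ p.d * p.d) * 1 := by ring
          _ ≤ p.lam * (2 ^ p.d * p.d) * (((p.q : ℝ) + 1) * (p.L : ℝ) ^ 4) :=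
              mul_le_mul_of_nonneg_left h5 h8
          _ = p.lam * ((2 : ℝ) ^ p.d * p.d * (p.q + 1)) * (p.L : ℝ) ^ 4 := by ring
          _ ≤ 1 / 10000 := h4
      calc 50 * (p.lam * (2 ^ (p.d + 2) * p.d)) = 200 * (p.lam * (2 ^ p.d * p.d)) := by
            rw [pow_add]
            ring
        _ ≤ 1 := by linarith
    have h10 : 1 / (4 * (p.L : ℝ)) * (p.K2 * p.n) = 250 * (p.L * p.mu) * p.n := by
      unfold Par.K2
      field_simp
      ring
    rw [h10]
    have h11 : 1000 * p.mu ≤ p.L * p.mu := mul_le_mul_of_nonneg_right hL hmu0.le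
    have h12 : 1 + 101 * (p.L * p.mu) + 7 / 5 * Real.log p.L ≤ 250 * (p.L * p.mu) := by
      linarith
    have h13 := mul_le_mul_of_nonneg_right h12 (show (0 : ℝ) ≤ p.n by linarith)
    have h14 := mul_le_mul_of_nonneg_right h3 (show (0 : ℝ) ≤ p.n by linarith)
    have h15 : Real.log p.L * (-(7 / 5 : ℝ) * p.n) = -(7 / 5 * Real.log p.L * p.n) := by ring
    rw [h15]
    linarith
  · intro j hj
    have hm := (mst_spec p hok t j hj htn).1
    have h1 := (kd_exp_int p hok hq t j hm).2
    have hh : 0 ≤ p.h := by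
      unfold Par.h
      positivity
    refine add_le_add (mul_le_mul_of_nonneg_left h1 hh) (Finset.sum_le_sum fun k _ => ?_)
    apply mul_le_mul_of_nonneg_left _ (pring_nonneg p hok k j)
    have h2 : p.rho (k + 1) / p.rho (max (p.mst t j) (k + 1)) ≤ 1 := by
      rw [div_le_one (rho_pos p hok _)]
      exact rho_mono p hok (le_max_right _ _)
    have h3 : g2 p t j k ≤ 1 := by
      unfold g2
      linarith
    calc Real.exp (g2 p t j k) - 1 ≤ 2 * g2 p t j k := exp_le _ (g2_nonneg p hok t j k) h3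
      _ = _ := by
          unfold g2
          ring

end KDB.I.P15
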